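import Pool.Agent.Y316.LX.Main

/-!
# Lyapunov exponents of locally constant cocycles of positive range: discontinuity at every law
which is not purely atomic

Stronger form of `DiscontinuousExponents`: every Polish space, every probability measure on it
which is not purely atomic, every range at least one and every prescribed pair of exponents.
-/

set_option autoImplicit false

open MeasureTheory

namespace Pool.Agent.Results.MP_d98278_an.EveryNonatomicLaw

open Pool.Agent.W747.LE

/-- Let `p` be a probability measure on a Polish space which is not purely atomic (no countable set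
has full measure), let `N ≥ 1` and let `b < a` be real numbers. There is a locally constant cocycle
`A` of range `N` with exponents `λ₊(A,p) = a` and `λ₋(A,p) = b` such that every basic neighbourhood
`V(A,p,γ,Z)` contains a pair `(A,q)`, with the same cocycle, with
`λ₊(A,q) = λ₋(A,q) = (a + b) / 2`. -/
theorem result (X : Type) [TopologicalSpace X] [PolishSpace X] [MeasurableSpace X] [BorelSpace X]
    (p : ProbabilityMeasure X) (hp : ∀ C : Set X, C.Countable → (p : Measure X) C ≠ 1)
    (N : ℕ) (hN : 1 ≤ N) (a b : ℝ) (hab : b < a) :
    ∃ A : (ℤ → X) → GL2, IsCocycle N A ∧ HasExponents A p a b ∧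
      ∀ γ : ℝ, 0 < γ → ∀ Z : Set X, MeasurableSet Z → (p : Measure X) Z = 1 →
        ∃ q : ProbabilityMeasure X, (A, q) ∈ nbhd N A p γ Z ∧
          HasExponents A q ((a + b) / 2) ((a + b) / 2) :=
  Pool.Agent.Y316.LX.main p hp N hN a b hab.le

end Pool.Agent.Results.MP_d98278_an.EveryNonatomicLaw
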